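import Pool.Agent.Work.MP_80156a_co.Transfer

/-!
# MP_80156a_co: Boltyanski's bound for bodies which are monotone toward a face of a parallelotope
-/

set_option autoImplicit false

namespace Pool.Agent.Results.MP_80156a_co.MonotoneBodies

/-- `coord b o z i`: the coordinate number `i` of the point `z` with respect to the basis `b` and
the origin `o` -/
noncomputable def coord {d : ℕ} (b : Module.Basis (Fin d) ℝ (EuclideanSpace ℝ (Fin d)))
    (o z : EuclideanSpace ℝ (Fin d)) (i : Fin d) : ℝ :=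
  b.repr (z - o) i

/-- In the coordinates of the basis `b` with the origin `o`, `K` lies in `[0, 1] ^ Y × [0, ∞) ^ Yᶜ`,
contains the face `[0, 1] ^ Y × 0`, and stays closed when coordinates outside `Y` are decreased
(but kept nonnegative). -/
def MonotoneIn {d : ℕ} (b : Module.Basis (Fin d) ℝ (EuclideanSpace ℝ (Fin d)))
    (o : EuclideanSpace ℝ (Fin d)) (Y : Finset (Fin d)) (K : Set (EuclideanSpace ℝ (Fin d))) :
    Prop :=
  (∀ z ∈ K, ∀ i, 0 ≤ coord b o z i) ∧
  (∀ z ∈ K, ∀ j ∈ Y, coord b o z j ≤ 1) ∧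
  (∀ z, (∀ j ∈ Y, 0 ≤ coord b o z j ∧ coord b o z j ≤ 1) →
    (∀ i, i ∉ Y → coord b o z i = 0) → z ∈ K) ∧
  ∀ z ∈ K, ∀ z', (∀ j ∈ Y, coord b o z' j = coord b o z j) →
    (∀ i, i ∉ Y → 0 ≤ coord b o z' i ∧ coord b o z' i ≤ coord b o z i) → z' ∈ K

/-- `K` is monotone toward a face of a parallelotope. -/
def MonotoneTowardFace {d : ℕ} (K : Set (EuclideanSpace ℝ (Fin d))) : Prop :=
  ∃ b o Y, MonotoneIn b o Y K

/-- If any `n` of finitely many translates of `K` have a common point, then all have. -/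
def TranslatesHelly {d : ℕ} (K : Set (EuclideanSpace ℝ (Fin d))) (n : ℕ) : Prop :=
  ∀ T : Finset (EuclideanSpace ℝ (Fin d)),
    (∀ S ⊆ T, S.card ≤ n → ∃ x : EuclideanSpace ℝ (Fin d), ∀ t ∈ S, x - t ∈ K) →
    ∃ x : EuclideanSpace ℝ (Fin d), ∀ t ∈ T, x - t ∈ K

/-- The directions in `L` illuminate the boundary of `K`. -/
def Illuminates {d : ℕ} (K : Set (EuclideanSpace ℝ (Fin d)))
    (L : Finset (EuclideanSpace ℝ (Fin d))) : Prop :=
  ∀ x ∈ frontier K, ∃ v ∈ L, ∃ t : ℝ, 0 < t ∧ x + t • v ∈ interior K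

theorem result :
    ∀ (d : ℕ), 3 ≤ d → ∀ (K : Set (EuclideanSpace ℝ (Fin d))),
      Convex ℝ K → IsCompact K → (interior K).Nonempty → MonotoneTowardFace K →
    ∀ (h : ℕ), 2 < h → TranslatesHelly K (h + 1) → ¬ TranslatesHelly K ((h - 1) + 1) →
      ∃ L : Finset (EuclideanSpace ℝ (Fin d)), L.card ≤ 2 ^ d - 2 ^ (d - h) ∧ Illuminates K L := by
  intro d _ K hconv hcomp hint ⟨b, o, Y, h1, h2, h3, h4⟩ h hh hHP hnHP
  obtain ⟨L, hL, hLit⟩ := Pool.Agent.Work.MP_80156a_co.main_of_basis b o Y hconv hcomp hint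
    h1 h2 h3 h4 hh hHP hnHP
  exact ⟨L, hL, fun x hx => hLit x (hcomp.isClosed.frontier_subset hx)⟩

end Pool.Agent.Results.MP_80156a_co.MonotoneBodies
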