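import Pool.Agent.Work.MP_80156a_loc.All

/-!
# MP_80156a_co: the exact maximum of the illumination number near a parallelotope
-/

set_option autoImplicit false

namespace Pool.Agent.Results.MP_80156a_co.NearCube

/-- `coord b o z i`: the coordinate number `i` of the point `z` with respect to the basis `b` and
the origin `o` -/
noncomputable def coord {d : ℕ} (b : Module.Basis (Fin d) ℝ (EuclideanSpace ℝ (Fin d)))
    (o z : EuclideanSpace ℝ (Fin d)) (i : Fin d) : ℝ :=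
  b.repr (z - o) i

/-- `K` lies between a parallelotope `P` (all coordinates at most `1` in absolute value, for some
basis and some origin) and `P` shrunk by the factor `1 - ε` toward its center. -/
def NearParallelotope {d : ℕ} (ε : ℝ) (K : Set (EuclideanSpace ℝ (Fin d))) : Prop :=
  ∃ (b : Module.Basis (Fin d) ℝ (EuclideanSpace ℝ (Fin d))) (o : EuclideanSpace ℝ (Fin d)),
    (∀ z, (∀ i, |coord b o z i| ≤ 1 - ε) → z ∈ K) ∧ ∀ z ∈ K, ∀ i, |coord b o z i| ≤ 1

/-- If any `n` of finitely many translates of `K` have a common point, then all have. -/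
def TranslatesHelly {d : ℕ} (K : Set (EuclideanSpace ℝ (Fin d))) (n : ℕ) : Prop :=
  ∀ T : Finset (EuclideanSpace ℝ (Fin d)),
    (∀ S ⊆ T, S.card ≤ n → ∃ x : EuclideanSpace ℝ (Fin d), ∀ t ∈ S, x - t ∈ K) →
    ∃ x : EuclideanSpace ℝ (Fin d), ∀ t ∈ T, x - t ∈ K

/-- `h` is the Helly dimension of `K` for translates. -/
def IsHellyDimension {d : ℕ} (K : Set (EuclideanSpace ℝ (Fin d))) (h : ℕ) : Prop :=
  IsLeast {m : ℕ | TranslatesHelly K (m + 1)} h

/-- The directions in `L` illuminate the boundary of `K`. -/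
def Illuminates {d : ℕ} (K : Set (EuclideanSpace ℝ (Fin d)))
    (L : Finset (EuclideanSpace ℝ (Fin d))) : Prop :=
  ∀ x ∈ frontier K, ∃ v ∈ L, ∃ t : ℝ, 0 < t ∧ x + t • v ∈ interior K

/-- `n` is the illumination number of `K`. -/
def IsIlluminationNumber {d : ℕ} (K : Set (EuclideanSpace ℝ (Fin d))) (n : ℕ) : Prop :=
  IsLeast {m : ℕ | ∃ L : Finset (EuclideanSpace ℝ (Fin d)), L.card = m ∧ Illuminates K L} n

theorem result (d : ℕ) :
    ∃ ε₀ : ℝ, 0 < ε₀ ∧ ∀ ε : ℝ, 0 < ε → ε ≤ ε₀ → ∀ h : ℕ, 2 ≤ h → h ≤ d →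
      IsGreatest {n : ℕ | ∃ K : Set (EuclideanSpace ℝ (Fin d)), Convex ℝ K ∧ IsCompact K ∧
        (interior K).Nonempty ∧ NearParallelotope ε K ∧ IsHellyDimension K h ∧
        IsIlluminationNumber K n} (2 ^ d - 2 ^ (d - h)) := by
  obtain ⟨ε₀, hε₀, h1⟩ := Pool.Agent.Work.MP_80156a_loc.local_final
    Pool.Agent.Work.MP_80156a_loc.all_MAIN d (EuclideanSpace ℝ (Fin d)) (by simp)
  -- the upper bound
  have hupper : ∀ ε : ℝ, ε ≤ ε₀ → ∀ h : ℕ, 2 ≤ h → ∀ K : Set (EuclideanSpace ℝ (Fin d)),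
      Convex ℝ K → IsCompact K → NearParallelotope ε K → IsHellyDimension K h →
      ∃ L : Finset (EuclideanSpace ℝ (Fin d)), L.card ≤ 2 ^ d - 2 ^ (d - h) ∧
        Illuminates K L := by
    intro ε hε h h2 K hc hK ⟨b, o, h3, h4⟩ hH
    obtain ⟨L, hL, hLit⟩ := h1 K b o hc hK
      (fun z hz => h3 z fun i => (hz i).trans (by linarith)) h4 h h2 hH.1
      (fun h5 => by
        have h6 : h - 1 ∈ {m : ℕ | TranslatesHelly K (m + 1)} := by
          rw [Set.mem_ofPred_eq, Nat.sub_add_cancel (by omega : 1 ≤ h)]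
          exact h5
        have := hH.2 h6
        omega)
    exact ⟨L, hL, fun x hx => hLit x (hK.isClosed.frontier_subset hx)⟩
  refine ⟨ε₀, hε₀, fun ε hε hεε₀ h h2 hd => ⟨?_, ?_⟩⟩
  · -- the value is attained
    obtain ⟨K, h3, h4, h5, h6, h7, h8, h9, h10⟩ := Pool.Agent.Work.MP_80156a_loc.sharp_final
      Pool.Agent.Work.MP_80156a_loc.all_SHA Pool.Agent.Work.MP_80156a_loc.all_SHB
      Pool.Agent.Work.MP_80156a_loc.all_SHC d (EuclideanSpace ℝ (Fin d))
      (EuclideanSpace.basisFun (Fin d) ℝ).toBasis h h2 hd ε hε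
    have hN : NearParallelotope ε K := ⟨_, 0, h6, h7⟩
    have hH : IsHellyDimension K h := by
      refine ⟨h8, fun m hm => ?_⟩
      by_contra hlt
      push Not at hlt
      exact h9 (Pool.Agent.Work.MP_80156a_co.HP.mono hm hlt)
    obtain ⟨L, hL, hLit⟩ := hupper ε hεε₀ h h2 K h3 h4 hN hH
    refine ⟨K, h3, h4, h5, hN, hH, ⟨L, le_antisymm hL (h10 L hLit), hLit⟩, ?_⟩
    rintro m ⟨L', rfl, hL'⟩
    exact h10 L' hL'
  · -- upper bound
    rintro n ⟨K, h3, h4, -, h6, h7, h8⟩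
    obtain ⟨L, hL, hLit⟩ := hupper ε hεε₀ h h2 K h3 h4 h6 h7
    exact (h8.2 ⟨L, rfl, hLit⟩).trans hL

end Pool.Agent.Results.MP_80156a_co.NearCube
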