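import Pool.Agent.Work.MP_80156a_sum.B_WCLOSE

/-!
# MP_80156a_co: bodies with a normal summand

Boltyanski's inequality is inherited by a convex body `K` from a body `M` in a subspace such that
each normal cone of `K` is contained in a normal cone of `M` (for instance a Minkowski summand `M`
of any dimension), together with the projection of `K` along this subspace.
-/

set_option autoImplicit false

namespace Pool.Agent.Results.MP_80156a_co.Summands

/-- `K` is a convex body in `E^d`. -/
def IsBody {d : ℕ} (K : Set (EuclideanSpace ℝ (Fin d))) : Prop :=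
  Convex ℝ K ∧ IsCompact K ∧ (interior K).Nonempty

/-- If any `n` of finitely many translates of `K` have a common point, then all have. -/
def TranslatesHelly {d : ℕ} (K : Set (EuclideanSpace ℝ (Fin d))) (n : ℕ) : Prop :=
  ∀ T : Finset (EuclideanSpace ℝ (Fin d)),
    (∀ S ⊆ T, S.card ≤ n → ∃ x : EuclideanSpace ℝ (Fin d), ∀ t ∈ S, x - t ∈ K) →
    ∃ x : EuclideanSpace ℝ (Fin d), ∀ t ∈ T, x - t ∈ K

/-- `h` is the Helly dimension of `K` for translates. -/
def IsHellyDimension {d : ℕ} (K : Set (EuclideanSpace ℝ (Fin d))) (h : ℕ) : Prop :=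
  IsLeast {m : ℕ | TranslatesHelly K (m + 1)} h

/-- The directions in `L` illuminate the boundary of `K`. -/
def Illuminates {d : ℕ} (K : Set (EuclideanSpace ℝ (Fin d)))
    (L : Finset (EuclideanSpace ℝ (Fin d))) : Prop :=
  ∀ x ∈ frontier K, ∃ v ∈ L, ∃ t : ℝ, 0 < t ∧ x + t • v ∈ interior K

/-- Boltyanski's inequality for the body `K`: if `him K = h ≥ 2` then `I(K) ≤ 2^d - 2^(d-h)`. -/
def Inequality {d : ℕ} (K : Set (EuclideanSpace ℝ (Fin d))) : Prop :=
  ∀ h : ℕ, 2 ≤ h → IsHellyDimension K h →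
    ∃ L : Finset (EuclideanSpace ℝ (Fin d)), L.card ≤ 2 ^ d - 2 ^ (d - h) ∧ Illuminates K L

/-- `M`, placed in the space of `K` by the linear injection `i`, is a normal summand of `K`: for
every point `x` of `K` there is a point `y` of `M` such that every linear functional with maximum
at `x` on `K` has its maximum on `M` at `y`. -/
def NormalSummand {d m : ℕ} (K : Set (EuclideanSpace ℝ (Fin d)))
    (M : Set (EuclideanSpace ℝ (Fin m)))
    (i : EuclideanSpace ℝ (Fin m) →ₗ[ℝ] EuclideanSpace ℝ (Fin d)) : Prop :=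
  ∀ x ∈ K, ∃ y ∈ M, ∀ f : EuclideanSpace ℝ (Fin d) →ₗ[ℝ] ℝ,
    (∀ z ∈ K, f z ≤ f x) → ∀ z ∈ M, f (i z) ≤ f (i y)

/-- `v` is a good direction of `K`: at each point `x` of `K` the linear functionals which have
their maximum on `K` at `x` are all nonnegative at `v`, or they are all nonpositive at `v`. -/
def GoodDirection {d : ℕ} (K : Set (EuclideanSpace ℝ (Fin d)))
    (v : EuclideanSpace ℝ (Fin d)) : Prop :=
  ∀ x ∈ K,
    (∀ f : EuclideanSpace ℝ (Fin d) →ₗ[ℝ] ℝ, (∀ z ∈ K, f z ≤ f x) → 0 ≤ f v) ∨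
    (∀ f : EuclideanSpace ℝ (Fin d) →ₗ[ℝ] ℝ, (∀ z ∈ K, f z ≤ f x) → f v ≤ 0)

/-- The bodies which can be taken apart, by projecting along a good direction, or by passing to a
normal summand `M` and to the projection along the subspace of `M`, into pieces which are of
dimension at most two, or parallelotopes, or bodies which satisfy the inequality. -/
inductive Composed : (d : ℕ) → Set (EuclideanSpace ℝ (Fin d)) → Prop
  /-- pieces of dimension at most two -/
  | low (d : ℕ) (K : Set (EuclideanSpace ℝ (Fin d))) (hd : d ≤ 2) : Composed d K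
  /-- parallelotopes -/
  | box (d : ℕ) (b : Module.Basis (Fin d) ℝ (EuclideanSpace ℝ (Fin d)))
      (o : EuclideanSpace ℝ (Fin d)) : Composed d {x | ∀ j, |b.repr (x - o) j| ≤ 1}
  /-- pieces for which the inequality is known -/
  | known (d : ℕ) (K : Set (EuclideanSpace ℝ (Fin d))) (hi : Inequality K) : Composed d K
  /-- the projection `p '' K` along a good direction `v` -/
  | dir (d k : ℕ) (K : Set (EuclideanSpace ℝ (Fin d))) (v : EuclideanSpace ℝ (Fin d))
      (p : EuclideanSpace ℝ (Fin d) →ₗ[ℝ] EuclideanSpace ℝ (Fin k)) (hv : v ≠ 0)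
      (hp : Function.Surjective p) (hpk : LinearMap.ker p = Submodule.span ℝ {v})
      (hg : GoodDirection K v) (hCP : Composed k (p '' K)) : Composed d K
  /-- the normal summand `M` of `K` and the projection `p '' K` along the subspace of `M` -/
  | sum (d m k : ℕ) (K : Set (EuclideanSpace ℝ (Fin d))) (M : Set (EuclideanSpace ℝ (Fin m)))
      (i : EuclideanSpace ℝ (Fin m) →ₗ[ℝ] EuclideanSpace ℝ (Fin d))
      (p : EuclideanSpace ℝ (Fin d) →ₗ[ℝ] EuclideanSpace ℝ (Fin k))
      (hi : Function.Injective i) (hp : Function.Surjective p)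
      (hip : LinearMap.ker p = LinearMap.range i) (hM : IsBody M) (hN : NormalSummand K M i)
      (hCM : Composed m M) (hCP : Composed k (p '' K)) : Composed d K

open Pool.Agent.Sum80 Pool.Agent.Work.MP_80156a_co

theorem body_iff {d : ℕ} {K : Set (EuclideanSpace ℝ (Fin d))} : IsBody K ↔ Bd K :=
  ⟨fun h => ⟨h.1, h.2.1, h.2.2⟩, fun h => ⟨h.conv, h.comp, h.int⟩⟩

theorem ineq_iff {d : ℕ} {K : Set (EuclideanSpace ℝ (Fin d))} (hK : Bd K) :
    Inequality K ↔ BI K := by
  have hfin : Module.finrank ℝ (EuclideanSpace ℝ (Fin d)) = d := by simp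
  constructor
  · intro hI h h2 hHP hn
    rw [hfin]
    obtain ⟨L, hL, hLit⟩ := hI h h2 ⟨hHP, fun m hm => by
      by_contra hlt
      push Not at hlt
      exact hn (HP.mono (show HP K (m + 1) from hm) hlt)⟩
    refine ⟨L, hL, fun w hw => ?_⟩
    by_cases hwi : w ∈ interior K
    · obtain ⟨x, hx⟩ := frontier_ne hK h2 hn
      obtain ⟨v, hv, -⟩ := hLit x hx
      exact ⟨v, hv, Lt.of_interior hwi⟩
    · refine hLit w ?_
      rw [frontier, hK.closed.closure_eq]
      exact ⟨hw, hwi⟩
  · intro hI h h2 hH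
    obtain ⟨L, hL, hLit⟩ := hI h h2 hH.1 (fun h5 => by
      have h6 : h - 1 ∈ {m : ℕ | TranslatesHelly K (m + 1)} := by
        rw [Set.mem_ofPred_eq, Nat.sub_add_cancel (by omega : 1 ≤ h)]
        exact h5
      have := hH.2 h6
      omega)
    rw [hfin] at hL
    exact ⟨L, hL, fun x hx => hLit x (hK.closed.frontier_subset hx)⟩

theorem body_image {d k : ℕ} {K : Set (EuclideanSpace ℝ (Fin d))} (hKb : Bd K)
    {p : EuclideanSpace ℝ (Fin d) →ₗ[ℝ] EuclideanSpace ℝ (Fin k)} (hp : Function.Surjective p) :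
    Bd (p '' K) := by
  refine ⟨hKb.conv.linear_image p, hKb.comp.image p.continuous_of_finiteDimensional, ?_⟩
  have h1 : p '' interior K ⊆ interior (p '' K) :=
    interior_maximal (Set.image_mono interior_subset)
      (p.isOpenMap_of_finiteDimensional hp _ isOpen_interior)
  exact (hKb.int.image p).mono h1

/-- a good direction is a normal summand of dimension one -/
theorem good_summand {d k : ℕ} {K : Set (EuclideanSpace ℝ (Fin d))}
    {v : EuclideanSpace ℝ (Fin d)} {p : EuclideanSpace ℝ (Fin d) →ₗ[ℝ] EuclideanSpace ℝ (Fin k)}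
    (hv0 : v ≠ 0) (hpk : LinearMap.ker p = Submodule.span ℝ {v}) (hg : GoodDirection K v) :
    ∃ i : EuclideanSpace ℝ (Fin 1) →ₗ[ℝ] EuclideanSpace ℝ (Fin d), Function.Injective i ∧
      LinearMap.ker p = LinearMap.range i ∧ NormalSummand K (Metric.closedBall 0 1) i := by
  let i : EuclideanSpace ℝ (Fin 1) →ₗ[ℝ] EuclideanSpace ℝ (Fin d) :=
    { toFun := fun t => t 0 • v
      map_add' := fun a b => by simp [add_smul]
      map_smul' := fun c a => by simp [mul_smul] }
  have hii : Function.Injective i := by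
    intro a b hab
    have h1 : a 0 • v = b 0 • v := hab
    have h2 := smul_left_injective ℝ hv0 h1
    ext j
    rw [Subsingleton.elim j 0]
    exact h2
  have hir : LinearMap.range i = Submodule.span ℝ {v} := by
    ext x
    rw [Submodule.mem_span_singleton]
    constructor
    · rintro ⟨t, rfl⟩
      exact ⟨t 0, rfl⟩
    · rintro ⟨c, rfl⟩
      exact ⟨EuclideanSpace.single 0 c, by simp [i]⟩
  refine ⟨i, hii, hpk.trans hir.symm, fun x hx => ?_⟩
  have key : ∀ z ∈ Metric.closedBall (0 : EuclideanSpace ℝ (Fin 1)) 1, |z 0| ≤ 1 := by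
    intro z hz
    rw [mem_closedBall_zero_iff] at hz
    have := PiLp.norm_apply_le z 0
    rw [Real.norm_eq_abs] at this
    exact this.trans hz
  have hfi : ∀ (f : EuclideanSpace ℝ (Fin d) →ₗ[ℝ] ℝ) (z : EuclideanSpace ℝ (Fin 1)),
      f (i z) = z 0 * f v := by
    intro f z
    change f (z 0 • v) = _
    rw [map_smul, smul_eq_mul]
  rcases hg x hx with h | h
  · refine ⟨EuclideanSpace.single 0 1, by simp, fun f hf z hz => ?_⟩
    have h0 := h f hf
    have hz := key z hz
    rw [hfi, hfi]
    simp only [PiLp.single_apply, if_true]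
    nlinarith [(abs_le.1 hz).2]
  · refine ⟨EuclideanSpace.single 0 (-1), by simp, fun f hf z hz => ?_⟩
    have h0 := h f hf
    have hz := key z hz
    rw [hfi, hfi]
    simp only [PiLp.single_apply, if_true]
    nlinarith [(abs_le.1 hz).1]

/-- Minkowski summands are normal summands. -/
theorem normalSummand_of_add {d m : ℕ} (A : Set (EuclideanSpace ℝ (Fin d)))
    (M : Set (EuclideanSpace ℝ (Fin m)))
    (i : EuclideanSpace ℝ (Fin m) →ₗ[ℝ] EuclideanSpace ℝ (Fin d)) :
    NormalSummand {x | ∃ a ∈ A, ∃ y ∈ M, x = a + i y} M i := by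
  rintro _ ⟨a, ha, y, hy, rfl⟩
  refine ⟨y, hy, fun f hf z hz => ?_⟩
  have h1 := hf (a + i z) ⟨a, ha, z, hz, rfl⟩
  rw [map_add, map_add] at h1
  linarith

/-- Bodies with `d - 2` linearly independent good directions are composed. -/
theorem good_composed (n : ℕ) : ∀ (d : ℕ) (K : Set (EuclideanSpace ℝ (Fin d)))
    (v : Fin n → EuclideanSpace ℝ (Fin d)), LinearIndependent ℝ v →
    (∀ j, GoodDirection K (v j)) → d ≤ n + 2 → Composed d K := by
  induction n with
  | zero =>
    intro d K v _ _ hd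
    exact Composed.low d K (by omega)
  | succ n ih =>
    intro d K v hv hg hd
    have hv0 : v 0 ≠ 0 := hv.ne_zero 0
    have hfr : Module.finrank ℝ (EuclideanSpace ℝ (Fin d) ⧸ Submodule.span ℝ {v 0}) = d - 1 := by
      have h1 := Submodule.finrank_quotient_add_finrank (Submodule.span ℝ {v 0})
      rw [finrank_span_singleton hv0] at h1
      have h2 : Module.finrank ℝ (EuclideanSpace ℝ (Fin d)) = d := by simp
      omega
    have e : (EuclideanSpace ℝ (Fin d) ⧸ Submodule.span ℝ {v 0}) ≃ₗ[ℝ]
        EuclideanSpace ℝ (Fin (d - 1)) :=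
      LinearEquiv.ofFinrankEq _ _ (by rw [hfr]; simp)
    let p : EuclideanSpace ℝ (Fin d) →ₗ[ℝ] EuclideanSpace ℝ (Fin (d - 1)) :=
      e.toLinearMap ∘ₗ (Submodule.span ℝ {v 0}).mkQ
    have hpk : LinearMap.ker p = Submodule.span ℝ {v 0} := by
      rw [LinearMap.ker_comp, LinearEquiv.ker, ← LinearMap.ker, Submodule.ker_mkQ]
    have hps : Function.Surjective p := by
      rw [LinearMap.coe_comp]
      exact e.surjective.comp (Submodule.mkQ_surjective _)
    refine Composed.dir d (d - 1) K (v 0) p hv0 hps hpk (hg 0) ?_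
    refine ih (d - 1) (p '' K) (fun j => p (v j.succ)) ?_ ?_ (by omega)
    · have h1 := linearIndependent_finSucc.1 hv
      refine LinearIndependent.map h1.1 ?_
      rw [hpk]
      exact (Submodule.disjoint_span_singleton' hv0).2 h1.2
    · rintro j _ ⟨x, hx, rfl⟩
      rcases hg j.succ x hx with h | h
      · exact Or.inl fun f hf => h (f ∘ₗ p) fun z hz => hf (p z) ⟨z, hz, rfl⟩
      · exact Or.inr fun f hf => h (f ∘ₗ p) fun z hz => hf (p z) ⟨z, hz, rfl⟩

theorem result (d : ℕ) (K : Set (EuclideanSpace ℝ (Fin d))) (hK : IsBody K)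
    (hC : Composed d K) : Inequality K := by
  induction hC with
  | low d K hd => exact (ineq_iff (body_iff.1 hK)).2 (all_LOW _ K (by simpa using hd) (body_iff.1 hK))
  | box d b o =>
    refine (ineq_iff (body_iff.1 hK)).2 (par_BI ⟨d, b.equivFun, o, ?_⟩)
    ext x
    simp [Module.Basis.equivFun_apply]
  | known d K hi => exact hi
  | dir d k K v p hv hp hpk hg hCP ihP =>
    have hKb := body_iff.1 hK
    have hPb := body_image hKb hp
    obtain ⟨i, hi, hip, hN⟩ := good_summand hv hpk hg
    have hMb : Bd (Metric.closedBall (0 : EuclideanSpace ℝ (Fin 1)) 1) :=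
      ⟨convex_closedBall 0 1, isCompact_closedBall 0 1,
        ⟨0, Metric.ball_subset_interior_closedBall (Metric.mem_ball_self one_pos)⟩⟩
    exact (ineq_iff hKb).2 (W_close hi hp hip hKb hMb hN (all_LOW _ _ (by simp) hMb)
      ((ineq_iff hPb).1 (ihP (body_iff.2 hPb))))
  | sum d m k K M i p hi hp hip hM hN hCM hCP ihM ihP =>
    have hKb := body_iff.1 hK
    have hMb := body_iff.1 hM
    have hPb := body_image hKb hp
    exact (ineq_iff hKb).2 (W_close hi hp hip hKb hMb hN ((ineq_iff hMb).1 (ihM hM))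
      ((ineq_iff hPb).1 (ihP (body_iff.2 hPb))))

end Pool.Agent.Results.MP_80156a_co.Summands
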