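import Pool.Agent.Work.MP_80156a_core7.GFinal
import Pool.Agent.Work.MP_80156a_core7.GTop

/-!
# MP_80156a_co: centrally symmetric bodies of Helly dimension three

The full bound of Q1 for all centrally symmetric convex bodies of Helly dimension three, in every
dimension `d`.
-/

set_option autoImplicit false

namespace Pool.Agent.Results.MP_80156a_co.SymmetricThree

/-- If any `n` of finitely many translates of `K` have a common point, then all have. -/
def TranslatesHelly {d : ℕ} (K : Set (EuclideanSpace ℝ (Fin d))) (n : ℕ) : Prop :=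
  ∀ T : Finset (EuclideanSpace ℝ (Fin d)),
    (∀ S ⊆ T, S.card ≤ n → ∃ x : EuclideanSpace ℝ (Fin d), ∀ t ∈ S, x - t ∈ K) →
    ∃ x : EuclideanSpace ℝ (Fin d), ∀ t ∈ T, x - t ∈ K

/-- `h` is the Helly dimension of `K` for translates. -/
def IsHellyDimension {d : ℕ} (K : Set (EuclideanSpace ℝ (Fin d))) (h : ℕ) : Prop :=
  IsLeast {m : ℕ | TranslatesHelly K (m + 1)} h

/-- The directions in `L` illuminate the boundary of `K`. -/
def Illuminates {d : ℕ} (K : Set (EuclideanSpace ℝ (Fin d)))
    (L : Finset (EuclideanSpace ℝ (Fin d))) : Prop :=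
  ∀ x ∈ frontier K, ∃ v ∈ L, ∃ t : ℝ, 0 < t ∧ x + t • v ∈ interior K

/-- `K` is centrally symmetric (with respect to some point). -/
def CentrallySymmetric {d : ℕ} (K : Set (EuclideanSpace ℝ (Fin d))) : Prop :=
  ∃ o : EuclideanSpace ℝ (Fin d), ∀ x ∈ K, o + o - x ∈ K

/-- Q1 for all centrally symmetric convex bodies of Helly dimension three. -/
theorem result (d : ℕ) (hd : 3 ≤ d) (K : Set (EuclideanSpace ℝ (Fin d)))
    (hconv : Convex ℝ K) (hcomp : IsCompact K) (hint : (interior K).Nonempty)
    (hsymm : CentrallySymmetric K) (hH : IsHellyDimension K 3) :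
    ∃ L : Finset (EuclideanSpace ℝ (Fin d)), L.card ≤ 2 ^ d - 2 ^ (d - 3) ∧ Illuminates K L := by
  obtain ⟨o, ho⟩ := hsymm
  obtain ⟨L, hL, hLit⟩ := Pool.Agent.Core7.final_of_core Pool.Agent.Core7.G.core7 hd hconv hcomp
    hint o ho hH.1 (fun h5 => by
      have h6 : (2 : ℕ) ∈ {m : ℕ | TranslatesHelly K (m + 1)} := h5
      have := hH.2 h6
      omega)
  exact ⟨L, hL, fun x hx => hLit x (hcomp.isClosed.frontier_subset hx)⟩

end Pool.Agent.Results.MP_80156a_co.SymmetricThree
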